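import Pool.Agent.H3.Nov

set_option autoImplicit false

namespace Pool.Agent.Results.MP_1dd1a8_co.Short

open Pool.Agent.H3.Nov

theorem result : ∀ v0 : ℕ, ∃ (v : ℕ) (_ : NeZero v), v0 ≤ v ∧ ∃ m : Finset (ZMod v) → ℕ,
    IsCyclicDesign v 3 2 m ∧ ¬ HasDisjointReps v m :=
  Pool.Agent.H3.Nov.main

end Pool.Agent.Results.MP_1dd1a8_co.Short
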